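import Pool.Agent.Q11.FM.GrLow

/-!
# MP_1da1b4_al: the exponents of growth `exp (r ^ α)` are those of quotients of the triangle group

For every group `G` with a finite generating set `X` there are a group `Q` generated by `x` and `y`
with `x ^ 2 = y ^ 3 = (x y) ^ 7 = 1` and a constant `C` with

* `γ_X(n) ≤ γ_{x,y}(C n)` and `γ_{x,y}(n) ≤ C γ_X(n) ^ C` for all `n`;
* `Q` belongs to all classes of groups containing `G` that are closed under subgroups, finite direct
  powers and finite extensions; examples are the classes of all groups, of torsion groups and of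
  residually finite groups.

Consequently, for every `α > 0` there is a Cayley graph of a group of such a class with growth
`≈ exp (r ^ α)` if and only if there is one of a group of the class generated by an element of order
two and an element of order three whose product has order seven, with respect to these generators.
So the graph may be taken to be a cubic one.

Idea of the proof.  The group `Q` is a subgroup of an iterated wreath product of `G` with finite
symmetric groups.  In each of the three steps the labels of the generators are generators of the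
previous group, which bounds the growth from above, and the labels at some point of the stabilizer of
the point are all of the previous group, which bounds the growth from below.
-/

set_option autoImplicit false

namespace Pool.Agent.Results.MP_1da1b4_al.TriangleGroups

open Pool.Agent.Q11.FM

/-- The growth function: the number of elements of `G` that are products of at most `n` elements of
`X ∪ X⁻¹`, so the size of the balls of radius `n` in the Cayley graph. -/
noncomputable def growth {G : Type} [Group G] (X : Set G) (n : ℕ) : ℕ :=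
  Set.ncard {g : G | ∃ l : List G, l.length ≤ n ∧ (∀ x ∈ l, x ∈ X ∨ x⁻¹ ∈ X) ∧ l.prod = g}

/-- `f ⪯ g`. -/
def Dominated (f g : ℕ → ℝ) : Prop :=
  ∃ C : ℕ, 1 ≤ C ∧ ∀ r : ℕ, 1 ≤ r → f r ≤ C * g (C * r)

/-- The Cayley graph of the group with respect to `X` has growth `≈ exp (r ^ α)`. -/
def HasGrowth {G : Type} [Group G] (X : Set G) (α : ℝ) : Prop :=
  Dominated (fun r => (growth X r : ℝ)) (fun r => Real.exp ((r : ℝ) ^ α)) ∧
    Dominated (fun r => Real.exp ((r : ℝ) ^ α)) (fun r => (growth X r : ℝ))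

/-- The class is closed under subgroups, finite direct powers and finite extensions. -/
structure ClosedClass (P : (G : Type) → [Group G] → Prop) : Prop where
  subgroups : ∀ (G H : Type) [Group G] [Group H] (f : H →* G), Function.Injective f → P G → P H
  powers : ∀ (G : Type) [Group G] (m : ℕ), P G → P (Fin m → G)
  extensions : ∀ (G : Type) [Group G] (N : Subgroup G), N.Normal → N.FiniteIndex → P N → P G

/-- All elements have finite order. -/
def Torsion (G : Type) [Group G] : Prop := ∀ g : G, ∃ n : ℕ, 0 < n ∧ g ^ n = 1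

/-- The subgroups of finite index intersect in the identity. -/
def ResiduallyFinite (G : Type) [Group G] : Prop :=
  ∀ g : G, g ≠ 1 → ∃ H : Subgroup G, H.FiniteIndex ∧ g ∉ H

/-- The exponent `α` is realised by a finitely generated group of the class `P`. -/
def Realised (P : (G : Type) → [Group G] → Prop) (α : ℝ) : Prop :=
  ∃ (G : Type) (_ : Group G) (X : Set G), X.Finite ∧ Subgroup.closure X = ⊤ ∧ P G ∧ HasGrowth X α

/-- The exponent `α` is realised by a group of the class `P` generated by two elements of orders two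
and three with a product of order seven. -/
def RealisedByTriangle (P : (G : Type) → [Group G] → Prop) (α : ℝ) : Prop :=
  ∃ (G : Type) (_ : Group G) (x y : G), orderOf x = 2 ∧ orderOf y = 3 ∧ orderOf (x * y) = 7 ∧
    Subgroup.closure {x, y} = ⊤ ∧ P G ∧ HasGrowth ({x, y} : Set G) α

lemma growth_eq {G : Type} [Group G] (X : Set G) (n : ℕ) : growth X n = (ball X n).ncard := rfl

lemma hasGrowth_of_near {G H : Type} [Group G] [Group H] {X : Set G} {Y : Set H}
    (hY : Y.Finite) (h : Near X Y) {α : ℝ} (hα : 0 < α) (hX' : HasGrowth X α) :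
    HasGrowth Y α := by
  obtain ⟨C, h1, h2⟩ := h
  obtain ⟨⟨A, hA, a1⟩, ⟨D, hD, d1⟩⟩ := hX'
  constructor
  · obtain ⟨B, hB⟩ := exists_nat_ge
      (max 1 (max ((C : ℝ) * (A : ℝ) ^ C) (((C : ℝ) * (A : ℝ) ^ α) ^ (1 / α))))
    have hB1 : (1 : ℝ) ≤ B := (le_max_left _ _).trans hB
    have hB2 : (C : ℝ) * (A : ℝ) ^ C ≤ B :=
      (le_max_left _ _).trans ((le_max_right _ _).trans hB)
    have hB3 : ((C : ℝ) * (A : ℝ) ^ α) ^ (1 / α) ≤ B :=
      (le_max_right _ _).trans ((le_max_right _ _).trans hB)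
    have hCA : (0 : ℝ) ≤ (C : ℝ) * (A : ℝ) ^ α := by positivity
    have hB4 : (C : ℝ) * (A : ℝ) ^ α ≤ (B : ℝ) ^ α := by
      have := Real.rpow_le_rpow (by positivity) hB3 hα.le
      rwa [← Real.rpow_mul hCA, one_div_mul_cancel hα.ne', Real.rpow_one] at this
    refine ⟨B, by exact_mod_cast hB1, fun r hr => ?_⟩
    have e1 : (growth Y r : ℝ) ≤ C * (growth X r : ℝ) ^ C := by
      have := h2 r
      rw [← growth_eq, ← growth_eq] at this
      exact_mod_cast this
    have e2 := a1 r hr
    have e3 : (0 : ℝ) ≤ (growth X r : ℝ) := Nat.cast_nonneg _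
    have hr0 : (0 : ℝ) ≤ (r : ℝ) := Nat.cast_nonneg _
    refine e1.trans ?_
    calc (C : ℝ) * (growth X r : ℝ) ^ C
        ≤ C * ((A : ℝ) * Real.exp (((A * r : ℕ) : ℝ) ^ α)) ^ C := by
          refine mul_le_mul_of_nonneg_left (pow_le_pow_left₀ e3 e2 C) (Nat.cast_nonneg _)
      _ = (C * (A : ℝ) ^ C) * Real.exp (C * ((A * r : ℕ) : ℝ) ^ α) := by
          rw [mul_pow, ← Real.exp_nat_mul, mul_assoc]
      _ ≤ B * Real.exp (((B * r : ℕ) : ℝ) ^ α) := by
          refine mul_le_mul hB2 (Real.exp_le_exp.2 ?_) (Real.exp_pos _).le (by positivity)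
          push_cast
          rw [Real.mul_rpow (Nat.cast_nonneg _) hr0, Real.mul_rpow (Nat.cast_nonneg _) hr0,
            ← mul_assoc]
          exact mul_le_mul_of_nonneg_right hB4 (Real.rpow_nonneg hr0 _)
  · refine ⟨(C + 1) * D, Nat.mul_pos (Nat.succ_pos C) hD, fun r hr => ?_⟩
    refine (d1 r hr).trans ?_
    have e1 : growth X (D * r) ≤ growth Y ((C + 1) * D * r) := by
      refine (h1 (D * r)).trans (Set.ncard_le_ncard (ball_mono ?_) (ball_finite hY _))
      rw [mul_assoc]
      exact Nat.mul_le_mul_right _ (by omega)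
    have e2 : (growth X (D * r) : ℝ) ≤ (growth Y ((C + 1) * D * r) : ℝ) := by exact_mod_cast e1
    have e3 : (D : ℝ) ≤ (((C + 1) * D : ℕ) : ℝ) := by
      exact_mod_cast Nat.le_mul_of_pos_left D (Nat.succ_pos C)
    exact mul_le_mul e3 e2 (Nat.cast_nonneg _) (Nat.cast_nonneg _)

/-- a trivial group has no such growth -/
lemma nontrivial_of_growth {G : Type} [Group G] {X : Set G} {α : ℝ} (hα : 0 < α)
    (h : HasGrowth X α) : Nontrivial G := by
  by_contra hn
  rw [not_nontrivial_iff_subsingleton] at hn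
  obtain ⟨C, hC, h1⟩ := h.2
  have h2 : ∀ n, (growth X n : ℝ) ≤ 1 := by
    intro n
    have : growth X n ≤ 1 := Set.ncard_le_one_of_subsingleton _
    exact_mod_cast this
  have h3 : ∀ r : ℕ, 1 ≤ r → Real.exp ((r : ℝ) ^ α) ≤ C := by
    intro r hr
    refine (h1 r hr).trans ?_
    have := mul_le_mul_of_nonneg_left (h2 (C * r)) (Nat.cast_nonneg C : (0 : ℝ) ≤ C)
    rwa [mul_one] at this
  obtain ⟨r, hr⟩ := exists_nat_gt ((C : ℝ) ^ (1 / α))
  have hC0 : (0 : ℝ) ≤ C := Nat.cast_nonneg _
  have h4 : (C : ℝ) < ((r + 1 : ℕ) : ℝ) ^ α := by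
    have h5 : (C : ℝ) ^ (1 / α) < ((r + 1 : ℕ) : ℝ) := by push_cast; linarith
    have := Real.rpow_lt_rpow (Real.rpow_nonneg hC0 _) h5 hα
    rwa [← Real.rpow_mul hC0, one_div_mul_cancel hα.ne', Real.rpow_one] at this
  have h5 := h3 (r + 1) (by omega)
  have h6 := Real.add_one_le_exp (((r + 1 : ℕ) : ℝ) ^ α)
  linarith

/-- the orders of the generators -/
lemma orders {G : Type} [Group G] [Nontrivial G] {x y : G} (hx : x ^ 2 = 1) (hy : y ^ 3 = 1)
    (hxy : (x * y) ^ 7 = 1) (h : Subgroup.closure {x, y} = ⊤) :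
    orderOf x = 2 ∧ orderOf y = 3 ∧ orderOf (x * y) = 7 := by
  have key : x = 1 → y = 1 → False := by
    rintro rfl rfl
    rw [show ({(1 : G), 1} : Set G) = {1} by simp] at h
    have h1 : (⊤ : Subgroup G) = ⊥ := by
      rw [← h, Subgroup.closure_singleton_one]
    exact top_ne_bot h1
  have k1 : x ≠ 1 := by
    intro h1
    apply key h1
    rw [h1, one_mul] at hxy
    calc y = y ^ 7 * ((y ^ 3)⁻¹ * (y ^ 3)⁻¹) := by group
      _ = 1 := by rw [hxy, hy]; simp
  have k2 : y ≠ 1 := by
    intro h1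
    apply key _ h1
    rw [h1, mul_one] at hxy
    calc x = x ^ 7 * ((x ^ 2)⁻¹ * (x ^ 2)⁻¹ * (x ^ 2)⁻¹) := by group
      _ = 1 := by rw [hxy, hx]; simp
  have k3 : x * y ≠ 1 := by
    intro h1
    have h2 : y = x⁻¹ := (inv_eq_of_mul_eq_one_right h1).symm
    apply k1
    rw [h2, inv_pow, inv_eq_one] at hy
    calc x = x ^ 3 * (x ^ 2)⁻¹ := by group
      _ = 1 := by rw [hx, hy]; simp
  have : Fact (Nat.Prime 7) := ⟨by norm_num⟩
  exact ⟨orderOf_eq_prime hx k1, orderOf_eq_prime hy k2, orderOf_eq_prime hxy k3⟩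

lemma closed_all : ClosedClass (fun _ _ => True) :=
  ⟨fun _ _ _ _ _ _ _ => trivial, fun _ _ _ _ => trivial, fun _ _ _ _ _ _ => trivial⟩

lemma closed_torsion : ClosedClass Torsion := by
  refine ⟨?_, ?_, ?_⟩
  · intro G H _ _ f hf hG h
    obtain ⟨n, hn, hn'⟩ := hG (f h)
    refine ⟨n, hn, hf ?_⟩
    rw [map_pow, map_one, hn']
  · intro G _ m hG g
    choose n hn hn' using fun i => hG (g i)
    refine ⟨∏ i, n i, Finset.prod_pos fun i _ => hn i, ?_⟩
    funext i
    rw [Pi.pow_apply, Pi.one_apply]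
    obtain ⟨k, hk⟩ := Finset.dvd_prod_of_mem n (Finset.mem_univ i)
    rw [hk, pow_mul, hn', one_pow]
  · intro G _ N hN hN' h g
    obtain ⟨n, hn, hn'⟩ := h ⟨g ^ N.index, Subgroup.pow_index_mem N g⟩
    refine ⟨N.index * n, Nat.mul_pos (Nat.pos_of_ne_zero hN'.index_ne_zero) hn, ?_⟩
    rw [pow_mul]
    exact congrArg Subtype.val hn'

lemma closed_resfin : ClosedClass ResiduallyFinite := by
  refine ⟨?_, ?_, ?_⟩
  · intro G H _ _ f hf hG h hh
    obtain ⟨U, hU, hU'⟩ := hG (f h) (fun e => hh (hf (by rw [e, map_one])))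
    refine ⟨U.comap f, ⟨?_⟩, hU'⟩
    rw [Subgroup.index_comap]
    exact (Subgroup.isFiniteRelIndex_of_finiteIndex (h := hU)).relIndex_ne_zero
  · intro G _ m hG g hg
    obtain ⟨i, hi⟩ := Function.ne_iff.1 hg
    obtain ⟨U, hU, hU'⟩ := hG (g i) hi
    refine ⟨U.comap (Pi.evalMonoidHom (fun _ => G) i), ⟨?_⟩, hU'⟩
    rw [Subgroup.index_comap]
    exact (Subgroup.isFiniteRelIndex_of_finiteIndex (h := hU)).relIndex_ne_zero
  · intro G _ N hN hN' h g hg
    by_cases hgN : g ∈ N
    · obtain ⟨U, hU, hU'⟩ := h ⟨g, hgN⟩ (fun e => hg (congrArg Subtype.val e))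
      refine ⟨U.map N.subtype, ⟨?_⟩, ?_⟩
      · rw [Subgroup.index_map]
        refine mul_ne_zero ?_ ?_
        · have : (U ⊔ N.subtype.ker).FiniteIndex := Subgroup.finiteIndex_of_le le_sup_left
          exact this.index_ne_zero
        · rw [Subgroup.range_subtype]
          exact hN'.index_ne_zero
      · rintro ⟨u, hu, hu'⟩
        apply hU'
        have : u = ⟨g, hgN⟩ := Subtype.ext hu'
        rwa [← this]
    · exact ⟨N, hN', hgN⟩

/-- **Main theorem.** -/
theorem result :
    (∀ P : (G : Type) → [Group G] → Prop, ClosedClass P →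
      ∀ (G : Type) [Group G] (X : Set G), X.Finite → Subgroup.closure X = ⊤ → P G →
      ∃ (Q : Type) (_ : Group Q) (x y : Q) (C : ℕ), x ^ 2 = 1 ∧ y ^ 3 = 1 ∧ (x * y) ^ 7 = 1 ∧
        Subgroup.closure {x, y} = ⊤ ∧ P Q ∧
        ∀ n, growth X n ≤ growth {x, y} (C * n) ∧ growth {x, y} n ≤ C * growth X n ^ C) ∧
    (∀ P : (G : Type) → [Group G] → Prop, ClosedClass P → ∀ α : ℝ, 0 < α →
      (Realised P α ↔ RealisedByTriangle P α)) ∧
    ClosedClass (fun _ _ => True) ∧ ClosedClass Torsion ∧ ClosedClass ResiduallyFinite := by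
  refine ⟨?_, ?_, closed_all, closed_torsion, closed_resfin⟩
  · intro P hP G _ X hX hgen hG
    obtain ⟨Q, _, x, y, h1, h2, h3, h4, h5, C, h6, h7⟩ :=
      low (⟨hP.subgroups, hP.powers, hP.extensions⟩ : Cls' P) hG hX hgen
    exact ⟨Q, inferInstance, x, y, C, h1, h2, h3, h4, h5, fun n => ⟨h6 n, h7 n⟩⟩
  · intro P hP α hα
    constructor
    · rintro ⟨G, _, X, hX, hgen, hG, hα'⟩
      obtain ⟨Q, _, x, y, h1, h2, h3, h4, h5, h6⟩ :=
        low (⟨hP.subgroups, hP.powers, hP.extensions⟩ : Cls' P) hG hX hgen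
      have h7 := hasGrowth_of_near (Set.toFinite _) h6 hα hα'
      have := nontrivial_of_growth hα h7
      obtain ⟨o1, o2, o3⟩ := orders h1 h2 h3 h4
      exact ⟨Q, inferInstance, x, y, o1, o2, o3, h4, h5, h7⟩
    · rintro ⟨G, _, x, y, -, -, -, hgen, hG, hα'⟩
      exact ⟨G, inferInstance, {x, y}, Set.toFinite _, hgen, hG, hα'⟩

end Pool.Agent.Results.MP_1da1b4_al.TriangleGroups
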